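import Pool.Agent.H28.Wheel

set_option autoImplicit false

open Set Pool.Agent.H28 Pool.Agent.H28.QG

namespace Pool.Agent.Results.MP_c0afcf_an.Wheel

theorem result : ∃ (n m : ℕ) (s t : Fin m → Fin n) (L : Fin m → ℝ), (∀ e, 0 < L e) ∧
    Conn s t univ ∧ (Hot s t L 0).Infinite ∧ ∃ e, ∃ x ∈ Icc 0 (L e), (e, x) ∉ Hot s t L 0 :=
  ⟨6, 9, Wheel.s, Wheel.t, Wheel.L, Wheel.Lp, Wheel.conn, Wheel.inf, 8, 0,
    ⟨le_rfl, (Wheel.Lp _).le⟩, Wheel.hub⟩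

end Pool.Agent.Results.MP_c0afcf_an.Wheel
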